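import Pool.Agent.Y579.NL.Core

/-!
From a reduction of `NON × P` to Ramsey's theorem for pairs to the combinatorial core.
-/

namespace Pool.Agent.Y579.NL

open Pool.Agent.Results.MP_743c94_lc.Full

/-- The zero sequence. -/
def zer : ℕ → Bool := fun _ => false

lemma join_pre_congr {p p' h : ℕ → Bool} {K k : ℕ} (hK : ∀ m < K, p m = p' m) (hk : k ≤ 2 * K) :
    pre (join p h) k = pre (join p' h) k := by
  unfold pre
  refine List.map_congr_left fun n hn => ?_
  rw [List.mem_range] at hn
  unfold join
  by_cases h2 : n % 2 = 0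
  · simp only [h2, if_true]
    exact hK _ (by omega)
  · simp only [h2, if_false]

lemma join_pre_congr' {p q q' : ℕ → Bool} {K k : ℕ} (hK : ∀ m < K, q m = q' m)
    (hk : k ≤ 2 * K) : pre (join p q) k = pre (join p q') k := by
  unfold pre
  refine List.map_congr_left fun n hn => ?_
  rw [List.mem_range] at hn
  unfold join
  by_cases h2 : n % 2 = 0
  · simp only [h2, if_true]
  · simp only [h2, if_false]
    exact hK _ (by omega)

lemma mix_pre (p h : ℕ → Bool) (k : ℕ) : mix p (pre h k) = pre (join p h) (2 * k) := by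
  unfold mix
  rw [pre_length]
  conv_rhs => unfold pre
  refine List.map_congr_left fun n hn => ?_
  rw [List.mem_range] at hn
  unfold join
  by_cases h2 : n % 2 = 0
  · simp only [h2, if_true]
  · simp only [h2, if_false]
    exact pre_getD h (by omega)

lemma mix_take (p h : ℕ → Bool) {k k' : ℕ} (hk : k' ≤ 2 * k) :
    (mix p (pre h k)).take k' = pre (join p h) k' := by
  rw [mix_pre, pre_take _ hk]

/-- The non-principal ultrafilter used for all limits. -/
noncomputable abbrev U : Ultrafilter ℕ := Filter.hyperfilter ℕ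

open Classical in
/-- The limit of a sequence of bits. -/
noncomputable def lm (f : ℕ → Bool) : Bool := decide (∀ᶠ s in (U : Filter ℕ), f s = true)

lemma lm_spec (f : ℕ → Bool) : ∀ᶠ s in (U : Filter ℕ), f s = lm f := by
  classical
  by_cases h : ∀ᶠ s in (U : Filter ℕ), f s = true
  · have : lm f = true := by simp [lm, h]
    rw [this]; exact h
  · have h1 : lm f = false := by simp [lm, h]
    rw [h1]
    have h2 : ∀ᶠ s in (U : Filter ℕ), ¬ f s = true := Ultrafilter.eventually_not.2 h
    exact h2.mono fun s hs => by simpa using hs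

lemma ev_ge (n : ℕ) : ∀ᶠ s in (U : Filter ℕ), n ≤ s :=
  (Filter.hyperfilter_le_cofinite (α := ℕ)) (by
    rw [Nat.cofinite_eq_atTop]; exact Filter.eventually_ge_atTop n)

lemma ev_atTop {P : ℕ → Prop} (h : ∀ᶠ s in Filter.atTop, P s) :
    ∀ᶠ s in (U : Filter ℕ), P s :=
  (Filter.hyperfilter_le_cofinite (α := ℕ)) (by rw [Nat.cofinite_eq_atTop]; exact h)

lemma infinite_of_ev {P : ℕ → Prop} (h : ∀ᶠ s in (U : Filter ℕ), P s) : {s | P s}.Infinite := by
  intro hfin
  obtain ⟨B, hB⟩ := hfin.bddAbove
  have h1 := h.and (ev_ge (B + 1))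
  obtain ⟨s, hs, hs'⟩ := h1.exists
  have : s ≤ B := hB hs
  omega

/-- What the reduction gives for one instance: a colouring, such that each homogeneous set gives
a solution. -/
def Sols (ΦH : List Bool → ℕ → Option Bool) (P : Problem) (p c : ℕ → Bool) : Prop :=
  ∀ (h : ℕ → Bool) (e : Bool), {n | h n = true}.Infinite → Hom c e {n | h n = true} →
    ∃ out : ℕ → Bool, Computes ΦH (join p h) out ∧
      ¬ TuringReducible (fun n => Part.some (left out n).toNat)
        (fun n => Part.some (left p n).toNat) ∧ right out ∈ P.sol (right p)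

lemma fact1 (hR : RAMSEY) {P : Problem} {H K : (ℕ → Bool) →. (ℕ → Bool)}
    {ΦH ΦK : List Bool → ℕ → Option Bool}
    (hH : ∀ p q, q ∈ H p → Computes ΦH p q) (hK : ∀ p q, q ∈ K p → Computes ΦK p q)
    (hred : ∀ G : (ℕ → Bool) →. (ℕ → Bool), IsRealizer G RT22 →
      IsRealizer (fun p => (K p).bind fun x => (G x).bind fun y => H (join p y)) (prod NON P))
    {p : ℕ → Bool} (hp : right p ∈ P.dom) :
    ∃ c, Computes ΦK p c ∧ Sols ΦH P p c := by
  classical
  have hram : ∀ c : ℕ → Bool, ∃ h : ℕ → Bool, h ∈ RT22.sol c := by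
    intro c
    obtain ⟨e, S, -, hS2, hS3⟩ := hR c (Set.infinite_univ (α := ℕ))
    refine ⟨fun n => decide (n ∈ S), ?_, e, fun x y hxy hx hy => ?_⟩
    · have : {n | (decide (n ∈ S)) = true} = S := by ext n; simp
      rw [this]; exact hS2
    · exact hS3 x (by simpa using hx) y (by simpa using hy) hxy
  choose R hRs using hram
  have hpd : p ∈ (prod NON P).dom := ⟨trivial, hp⟩
  have hG0 : IsRealizer (fun c => Part.some (R c)) RT22 := fun c _ =>
    ⟨R c, Part.mem_some _, hRs c⟩
  obtain ⟨q, hq, -⟩ := hred _ hG0 p hpd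
  obtain ⟨c, hc, -⟩ := Part.mem_bind_iff.1 hq
  refine ⟨c, hK _ _ hc, ?_⟩
  intro h e hinf hhom
  have hG : IsRealizer (fun c' => Part.some (if c' = c then h else R c')) RT22 := by
    intro c' _
    refine ⟨_, Part.mem_some _, ?_⟩
    by_cases hcc : c' = c
    · subst hcc
      simp only [if_true]
      exact ⟨hinf, e, fun x y hxy hx hy => hhom x hx y hy hxy⟩
    · simp only [hcc, if_false]
      exact hRs c'
  obtain ⟨out, hout, hsol⟩ := hred _ hG p hpd
  obtain ⟨c1, hc1, h1⟩ := Part.mem_bind_iff.1 hout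
  have hcc : c1 = c := Part.mem_unique hc1 hc
  subst hcc
  obtain ⟨y, hy, h2⟩ := Part.mem_bind_iff.1 h1
  rw [Part.mem_some_iff] at hy
  simp only [if_true] at hy
  subst hy
  exact ⟨out, hH _ _ h2, hsol.1, hsol.2⟩

lemma computable_join {p q : ℕ → Bool} (hp : Computable p) (hq : Computable q) :
    Computable (join p q) := by
  have h1 : Computable fun n : ℕ => decide (n % 2 = 0) :=
    (PrimrecRel.comp Primrec.eq (Primrec.nat_mod.comp Primrec.id (Primrec.const 2))
      (Primrec.const 0)).decide.to_comp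
  have h2 : Computable fun n : ℕ => n / 2 :=
    (Primrec.nat_div.comp Primrec.id (Primrec.const 2)).to_comp
  refine (Computable.cond h1 (hp.comp h2) (hq.comp h2)).of_eq fun n => ?_
  unfold join
  by_cases h : n % 2 = 0 <;> simp [h]

lemma computable_left {p : ℕ → Bool} (hp : Computable p) : Computable (left p) :=
  hp.comp Primrec.nat_double.to_comp

lemma turing_of_computable {f : ℕ → Bool} (hf : Computable f) (g : ℕ →. ℕ) :
    TuringReducible (fun n => Part.some (f n).toNat) g := by
  have h1 : Computable fun n => (f n).toNat :=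
    (Primrec.dom_finite Bool.toNat).to_comp.comp hf
  exact Partrec.recursiveIn h1

lemma fact2 (hC : COMPUT) {P : Problem} {ΦH : List Bool → ℕ → Option Bool} (hΦH : Computable₂ ΦH)
    {p c : ℕ → Bool} (hp : Computable p) (hs : Sols ΦH P p c) (h : ℕ → Bool) (e : Bool)
    (hh : Computable h) (hinf : {n | h n = true}.Infinite) : ¬ Hom c e {n | h n = true} := by
  intro hhom
  obtain ⟨out, h1, h2, -⟩ := hs h e hinf hhom
  exact h2 (turing_of_computable (computable_left (hC hΦH (computable_join hp hh) h1)) _)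

lemma comp_all (c : ℕ → Bool) (hc : Computable c) (e : Bool) (l : List ℕ) :
    Computable fun y : ℕ => decide (∀ x ∈ l, c (Nat.pair x y) = e) := by
  classical
  induction l with
  | nil => exact (Computable.const true).of_eq fun y => by simp
  | cons a l ih =>
    have h1 : Computable fun y : ℕ => c (Nat.pair a y) :=
      hc.comp (Primrec₂.natPair.comp (Primrec.const a) Primrec.id).to_comp
    have h2 : Computable fun y : ℕ => decide (c (Nat.pair a y) = e) :=
      (Primrec.dom_finite (fun b : Bool => decide (b = e))).to_comp.comp h1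
    refine (Computable.cond h2 ih (Computable.const false)).of_eq fun y => ?_
    by_cases h : c (Nat.pair a y) = e <;> simp [h]

/-- A committed finite set that survives the pattern has an infinite homogeneous extension, and
hence fixes the answer. -/
lemma surv (hG : GREEDY) (hC : COMPUT) {P : Problem} {ΦH : List Bool → ℕ → Option Bool}
    (hΦH : Computable₂ ΦH) {z z' c0 c' : ℕ → Bool} (hz' : Computable z') (hc' : Computable c')
    (hs : Sols ΦH P (join zer z') c') {σ : List Bool} {s : ℕ}
    (hag : ∀ i < s, z' i = z i) (hsσ : σ.length ≤ s) {e : Bool} (hom : Hom c0 e (supp σ))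
    (hcc : ∀ x < σ.length, ∀ y < σ.length, c' (Nat.pair x y) = c0 (Nat.pair x y))
    (hlim : ∀ x ∈ supp σ, ∀ᶠ y in (U : Filter ℕ), c' (Nat.pair x y) = e) :
    ∃ out : ℕ → Bool, (∀ n k b, k < 2 * σ.length + 1 →
      ΦH ((mix (join zer z) σ).take k) (2 * n + 1) = some b → b = out (2 * n + 1)) ∧
      right out ∈ P.sol z' := by
  classical
  have hsl : ∀ x ∈ supp σ, x < σ.length := fun x hx =>
    (List.getElem?_eq_some_iff.1 (show σ[x]? = some true from hx)).1
  set l : List ℕ := (List.range σ.length).filter (fun x => decide (x ∈ supp σ)) with hl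
  have hml : ∀ x, x ∈ l ↔ x ∈ supp σ := by
    intro x
    rw [hl, List.mem_filter, List.mem_range]
    constructor
    · rintro ⟨-, h⟩; simpa using h
    · intro h; exact ⟨hsl x h, by simpa using h⟩
  set X : ℕ → Bool := fun y => bif decide (σ.length ≤ y) then
    decide (∀ x ∈ l, c' (Nat.pair x y) = e) else false with hX
  have hXt : ∀ y, X y = true ↔ σ.length ≤ y ∧ ∀ x ∈ supp σ, c' (Nat.pair x y) = e := by
    intro y
    by_cases h : σ.length ≤ y
    · simp only [hX, h, decide_true, cond_true, decide_eq_true_eq, true_and]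
      exact ⟨fun h1 x hx => h1 x ((hml x).2 hx), fun h1 x hx => h1 x ((hml x).1 hx)⟩
    · simp [hX, h]
  have hXc : Computable X :=
    Computable.cond (PrimrecRel.comp Primrec.nat_le (Primrec.const σ.length)
      Primrec.id).decide.to_comp (comp_all c' hc' e l) (Computable.const false)
  have hXinf : {n | X n = true}.Infinite := by
    have h1 : ∀ᶠ y in (U : Filter ℕ), ∀ x ∈ l.toFinset, c' (Nat.pair x y) = e := by
      rw [Filter.eventually_all_finset]
      intro x hx
      exact hlim x ((hml x).1 (List.mem_toFinset.1 hx))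
    have h2 : ∀ᶠ y in (U : Filter ℕ), X y = true := by
      filter_upwards [h1, ev_ge σ.length] with y hy1 hy2
      exact (hXt y).2 ⟨hy2, fun x hx => hy1 x (List.mem_toFinset.2 ((hml x).2 hx))⟩
    exact infinite_of_ev h2
  have hpc : Computable (join zer z') := computable_join (Computable.const false) hz'
  have hex : ∃ S : Set ℕ, S.Infinite ∧ S ⊆ {n | X n = true} ∧ Hom c' e S := by
    by_contra hno
    obtain ⟨h, h1, h2, -, h4⟩ := hG hc' hXc hXinf e hno
    exact fact2 hC hΦH hpc hs h _ h1 h2 h4
  obtain ⟨S, hS1, hS2, hS3⟩ := hex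
  have hSX : ∀ y ∈ S, σ.length ≤ y ∧ ∀ x ∈ supp σ, c' (Nat.pair x y) = e := fun y hy =>
    (hXt y).1 (hS2 hy)
  set h : ℕ → Bool := fun n => decide (n ∈ supp σ ∨ n ∈ S) with hh
  have hht : ∀ n, h n = true ↔ (n ∈ supp σ ∨ n ∈ S) := fun n => by simp [hh]
  have hinf : {n | h n = true}.Infinite := hS1.mono fun n hn => (hht n).2 (Or.inr hn)
  have hhom : Hom c' e {n | h n = true} := by
    intro x hx y hy hxy
    rcases (hht x).1 hx with hx | hx <;> rcases (hht y).1 hy with hy | hy
    · rw [hcc x (hsl x hx) y (hsl y hy)]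
      exact hom x hx y hy hxy
    · exact (hSX y hy).2 x hx
    · have h1 := (hSX x hx).1
      have h2 := hsl y hy
      omega
    · exact hS3 x hx y hy hxy
  have hpre : pre h σ.length = σ := by
    refine List.ext_getElem? fun n => ?_
    by_cases hn : n < σ.length
    · rw [pre_getElem? h hn]
      have h1 : σ[n]? = some (σ[n]) := List.getElem?_eq_getElem hn
      rw [h1]
      congr 1
      rcases hb : σ[n] with _ | _
      · rw [hh]
        simp only [decide_eq_false_iff_not, not_or]
        refine ⟨fun hm => ?_, fun hm => ?_⟩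
        · have hm' : σ[n]? = some true := hm
          rw [h1, hb] at hm'
          simp at hm'
        · have := (hSX n hm).1
          omega
      · rw [hht]
        left
        show σ[n]? = some true
        rw [h1, hb]
    · rw [List.getElem?_eq_none (by simpa using hn), List.getElem?_eq_none (by omega)]
  obtain ⟨out, h1, -, h3⟩ := hs h e hinf hhom
  refine ⟨out, ?_, ?_⟩
  · intro n k b hk hb
    refine (h1 (2 * n + 1)).2 k b ?_
    rw [← hb]
    congr 1
    conv_rhs => rw [← hpre]
    rw [mix_take _ _ (by omega)]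
    refine join_pre_congr (K := σ.length) (fun m hm => ?_) (by omega)
    unfold join
    by_cases h2 : m % 2 = 0
    · simp [h2]
    · simp only [h2, if_false]
      exact hag _ (by omega)
  · rw [right_join] at h3
    exact h3

/-- The main negative theorem. -/
theorem negative (hG : GREEDY) (hR : RAMSEY) (hI : ISOLATE) (hB : BADRE) (hC : COMPUT)
    (hE : COMMITRE) {P : Problem} {z : ℕ → Bool} (hz : z ∈ P.dom) (hzc : Computable z) (N : ℕ)
    (T : ℕ → Set (List Bool)) (hT : ∀ j < 3, ∀ j' < 3, j ≠ j' → ∀ v ∈ T j, v ∉ T j')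
    (hP : ∀ j, j < 3 → ∀ s, ∃ z' : ℕ → Bool, z' ∈ P.dom ∧ Computable z' ∧
      (∀ i < s, z' i = z i) ∧ ∀ q ∈ P.sol z', pre q N ∈ T j) :
    ¬ WeihrauchReducible (prod NON P) RT22 := by
  classical
  rintro ⟨H, K, ⟨ΦH, hΦH, hH⟩, ⟨ΦK, hΦK, hK⟩, hred⟩
  have f1 := fun (p : ℕ → Bool) (hp : right p ∈ P.dom) =>
    fact1 hR (ΦH := ΦH) (ΦK := ΦK) hH hK hred (p := p) hp
  obtain ⟨c0, hc0, hs0⟩ := f1 (join zer z) (by rw [right_join]; exact hz)
  have hp0 : Computable (join zer z) := computable_join (Computable.const false) hzc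
  have hc0c : Computable c0 := hC hΦK hp0 hc0
  choose! Z hZ1 hZ2 hZ3 hZ4 using hP
  have f2 : ∀ j, j < 3 → ∀ s, ∃ c, Computes ΦK (join zer (Z j s)) c ∧
      Sols ΦH P (join zer (Z j s)) c := fun j hj s =>
    f1 _ (by rw [right_join]; exact hZ1 j hj s)
  choose! C hC1 hC2 using f2
  have hCc : ∀ j, j < 3 → ∀ s, Computable (C j s) := fun j hj s =>
    hC hΦK (computable_join (Computable.const false) (hZ2 j hj s)) (hC1 j hj s)
  -- the colourings converge
  have hconv : ∀ j, j < 3 → ∀ m, ∀ᶠ s in Filter.atTop, C j s m = c0 m := by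
    intro j hj m
    obtain ⟨k, hk⟩ := (hc0 m).1
    refine Filter.eventually_atTop.2 ⟨k, fun s hs => ?_⟩
    have h1 : pre (join zer (Z j s)) k = pre (join zer z) k :=
      join_pre_congr' (K := k) (fun i hi => hZ3 j hj s i (by omega)) (by omega)
    exact ((hC1 j hj s m).2 k (c0 m) (by rw [h1]; exact hk)).symm
  refine core hG hR hI hB (c := c0) (Cm := Commit ΦH N (join zer z)) hc0c (hE N hΦH hp0)
    (fun h e hh hinf => fact2 hC hΦH hp0 hs0 h e hh hinf) ?_ ?_
  · intro h e hinf hhom
    obtain ⟨out, h1, -, -⟩ := hs0 h e hinf hhom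
    choose kk hkk using fun n => (h1 (2 * n + 1)).1
    refine ⟨(Finset.range N).sup kk, fun n hn => ⟨kk n, ?_, ?_⟩⟩
    · rw [pre_length]
      have := Finset.le_sup (f := kk) (Finset.mem_range.2 hn)
      omega
    · rw [mix_take _ _ (by have := Finset.le_sup (f := kk) (Finset.mem_range.2 hn); omega), hkk n]
      rfl
  · set D : ℕ → ℕ → ℕ → Bool := fun j s x => lm fun y => C j s (Nat.pair x y) with hD
    refine ⟨fun n => lm fun s => D (n % 3) s (n / 3), ?_⟩
    intro σ e hCm hHom j hj j' hj' hne
    by_contra hcon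
    push Not at hcon
    have hWj : ∀ i, i < 3 → ∀ x, ∀ᶠ s in (U : Filter ℕ),
        D i s x = lm fun s => D ((3 * x + i) % 3) s ((3 * x + i) / 3) := by
      intro i hi x
      have e1 : (3 * x + i) % 3 = i := by omega
      have e2 : (3 * x + i) / 3 = x := by omega
      rw [e1, e2]
      exact lm_spec _
    have hsl : ∀ x ∈ supp σ, x < σ.length := fun x hx =>
      (List.getElem?_eq_some_iff.1 (show σ[x]? = some true from hx)).1
    have hev : ∀ i, i < 3 → (∀ x ∈ supp σ,
        (lm fun s => D ((3 * x + i) % 3) s ((3 * x + i) / 3)) = e) →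
        ∀ᶠ s in (U : Filter ℕ), (∀ x ∈ supp σ, D i s x = e) ∧
          ∀ x < σ.length, ∀ y < σ.length, C i s (Nat.pair x y) = c0 (Nat.pair x y) := by
      intro i hi hx
      have h1 : ∀ᶠ s in (U : Filter ℕ), ∀ x ∈ Finset.range σ.length,
          x ∈ supp σ → D i s x = e := by
        rw [Filter.eventually_all_finset]
        intro x _
        by_cases hxs : x ∈ supp σ
        · filter_upwards [hWj i hi x] with s hs _
          rw [hs]; exact hx x hxs
        · exact Filter.Eventually.of_forall fun s h => absurd h hxs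
      have h2 : ∀ᶠ s in (U : Filter ℕ), ∀ x ∈ Finset.range σ.length,
          ∀ y ∈ Finset.range σ.length, C i s (Nat.pair x y) = c0 (Nat.pair x y) := by
        rw [Filter.eventually_all_finset]
        intro x _
        rw [Filter.eventually_all_finset]
        intro y _
        exact ev_atTop (hconv i hi _)
      filter_upwards [h1, h2] with s hs1 hs2
      exact ⟨fun x hxs => hs1 x (Finset.mem_range.2 (hsl x hxs)) hxs, fun x hx' y hy =>
        hs2 x (Finset.mem_range.2 hx') y (Finset.mem_range.2 hy)⟩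
    have hj1 := hev j hj fun x hx => (hcon x hx).1
    have hj2 := hev j' hj' fun x hx => (hcon x hx).2
    obtain ⟨s, ⟨h1, h2⟩, ⟨h3, h4⟩, hsge⟩ := (hj1.and (hj2.and (ev_ge σ.length))).exists
    obtain ⟨o1, p1, q1⟩ := surv hG hC hΦH (z := z) (hZ2 j hj s) (hCc j hj s) (hC2 j hj s)
      (hZ3 j hj s) hsge hHom h2 (fun x hx => by
        have := lm_spec fun y => C j s (Nat.pair x y)
        filter_upwards [this] with y hy
        rw [hy]; exact h1 x hx)
    obtain ⟨o2, p2, q2⟩ := surv hG hC hΦH (z := z) (hZ2 j' hj' s) (hCc j' hj' s) (hC2 j' hj' s)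
      (hZ3 j' hj' s) hsge hHom h4 (fun x hx => by
        have := lm_spec fun y => C j' s (Nat.pair x y)
        filter_upwards [this] with y hy
        rw [hy]; exact h3 x hx)
    have heq : pre (right o1) N = pre (right o2) N := by
      unfold pre
      refine List.map_congr_left fun n hn => ?_
      rw [List.mem_range] at hn
      obtain ⟨k, hk, hk'⟩ := hCm n hn
      obtain ⟨b, hb⟩ := Option.isSome_iff_exists.1 hk'
      have e1 := p1 n k b hk hb
      have e2 := p2 n k b hk hb
      show o1 (2 * n + 1) = o2 (2 * n + 1)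
      rw [← e1, ← e2]
    exact hT j hj j' hj' hne _ (hZ4 j hj s _ q1) (by rw [heq]; exact hZ4 j' hj' s _ q2)

end Pool.Agent.Y579.NL
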