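import Pool.Agent.Y579.NL.Defs

/-!
The combinatorial core: committed finite sets cannot be killed by two of three patterns.
-/

namespace Pool.Agent.Y579.NL

open Pool.Agent.Results.MP_743c94_lc.Full

lemma mem_supp_pre {h : ℕ → Bool} {k x : ℕ} (hx : x ∈ supp (pre h k)) : x < k ∧ h x = true := by
  have hx' : (pre h k)[x]? = some true := hx
  have h1 : x < (pre h k).length := (List.getElem?_eq_some_iff.1 hx').1
  exact ⟨by simpa using h1, (pre_getElem?_some hx').symm⟩

lemma good_iff {c : ℕ → Bool} {Cm : List Bool → Prop} {W : ℕ → Bool} :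
    Good c Cm W ↔ ∀ n, ¬ Bad c Cm (pre W n) := by
  constructor
  · rintro hg n ⟨σ, e, j, j', h1, h2, h3, h4, h5, h6⟩
    obtain ⟨x, hx, hx'⟩ := hg σ e h1 h2 j h3 j' h4 h5
    obtain ⟨h7, h8⟩ := h6 x hx
    rcases hx' with hx' | hx'
    · exact hx' (pre_getElem?_some h7).symm
    · exact hx' (pre_getElem?_some h8).symm
  · intro hb σ e h1 h2 j hj j' hj' hne
    by_contra hcon
    push Not at hcon
    refine hb (3 * σ.length + 3) ⟨σ, e, j, j', h1, h2, hj, hj', hne, fun x hx => ?_⟩
    have hx' : σ[x]? = some true := hx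
    have hlt : x < σ.length := (List.getElem?_eq_some_iff.1 hx').1
    obtain ⟨h3, h4⟩ := hcon x hx
    rw [pre_getElem? W (by omega), pre_getElem? W (by omega), h3, h4]
    exact ⟨rfl, rfl⟩

/-- The majority of three bits. -/
def maj (a b c : Bool) : Bool := (a && b) || (a && c) || (b && c)

lemma maj_cases : ∀ {a b c e : Bool}, maj a b c = e →
    (a = e ∧ b = e) ∨ (a = e ∧ c = e) ∨ (b = e ∧ c = e) := by
  decide

/-- The majority colour at `x`. -/
def mj (W : ℕ → Bool) (x : ℕ) : Bool := maj (W (3 * x)) (W (3 * x + 1)) (W (3 * x + 2))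

theorem no_hom {c : ℕ → Bool} {Cm : List Bool → Prop} {W : ℕ → Bool} (hg : Good c Cm W)
    (hcom : ∀ (h : ℕ → Bool) (e : Bool), {n | h n = true}.Infinite →
      Hom c e {n | h n = true} → ∃ k, Cm (pre h k))
    {e : Bool} {S : Set ℕ} (hS : S.Infinite) (hH : Hom c e S) (hm : ∀ x ∈ S, mj W x = e) :
    False := by
  classical
  have key : ∀ j < 3, ∀ j' < 3, j ≠ j' →
      ¬ {x | x ∈ S ∧ W (3 * x + j) = e ∧ W (3 * x + j') = e}.Infinite := by
    intro j hj j' hj' hne hinf
    set T := {x | x ∈ S ∧ W (3 * x + j) = e ∧ W (3 * x + j') = e} with hT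
    set h : ℕ → Bool := fun n => decide (n ∈ T) with hh
    have hset : {n | h n = true} = T := by
      ext n; simp [hh]
    have hHT : Hom c e {n | h n = true} := by
      rw [hset]
      intro x hx y hy hxy
      exact hH x hx.1 y hy.1 hxy
    obtain ⟨k, hk⟩ := hcom h e (by rw [hset]; exact hinf) hHT
    have hsub : ∀ x ∈ supp (pre h k), x ∈ T := fun x hx => by
      have := (mem_supp_pre hx).2
      simpa [hh] using this
    obtain ⟨x, hx, hx'⟩ := hg (pre h k) e hk (fun x hx y hy hxy =>
      hH x (hsub x hx).1 y (hsub y hy).1 hxy) j hj j' hj' hne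
    rcases hx' with hx' | hx'
    · exact hx' (hsub x hx).2.1
    · exact hx' (hsub x hx).2.2
  refine hS (Set.Finite.subset (((Set.not_infinite.1 (key 0 (by norm_num) 1 (by norm_num)
    (by norm_num))).union (Set.not_infinite.1 (key 0 (by norm_num) 2 (by norm_num)
    (by norm_num)))).union (Set.not_infinite.1 (key 1 (by norm_num) 2 (by norm_num)
    (by norm_num)))) fun x hx => ?_)
  rcases maj_cases (hm x hx) with h | h | h
  · exact Or.inl (Or.inl ⟨hx, h.1, h.2⟩)
  · exact Or.inl (Or.inr ⟨hx, h.1, h.2⟩)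
  · exact Or.inr ⟨hx, h.1, h.2⟩

theorem core (hG : GREEDY) (hR : RAMSEY) (hI : ISOLATE) (hB : BADRE) {c : ℕ → Bool}
    {Cm : List Bool → Prop} (hc : Computable c) (hRE : REPred Cm)
    (hnc : ∀ (h : ℕ → Bool) (e : Bool), Computable h → {n | h n = true}.Infinite →
      ¬ Hom c e {n | h n = true})
    (hcom : ∀ (h : ℕ → Bool) (e : Bool), {n | h n = true}.Infinite →
      Hom c e {n | h n = true} → ∃ k, Cm (pre h k))
    (hW : ∃ W, Good c Cm W) : False := by
  classical
  obtain ⟨W0, hW0⟩ := hW
  obtain ⟨W, hW1, hcmp⟩ := hI (hB hc hRE) maj ⟨W0, good_iff.1 hW0⟩ (by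
    intro W W' h1 h2
    have g1 := good_iff.2 h1
    have g2 := good_iff.2 h2
    by_contra hinf
    have hinf' : {x | mj W x ≠ mj W' x}.Infinite := hinf
    have hcov : {x | mj W x ≠ mj W' x} ⊆ {x | mj W x = true ∧ mj W' x = false} ∪
        {x | mj W x = false ∧ mj W' x = true} := by
      intro x hx
      have hx' : mj W x ≠ mj W' x := hx
      rcases h3 : mj W x with _ | _ <;> rcases h4 : mj W' x with _ | _
      · rw [h3, h4] at hx'; exact absurd rfl hx'
      · exact Or.inr ⟨h3, h4⟩
      · exact Or.inl ⟨h3, h4⟩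
      · rw [h3, h4] at hx'; exact absurd rfl hx'
    have step : ∀ b : Bool, ¬ {x | mj W x = b ∧ mj W' x = !b}.Infinite := by
      intro b hb
      obtain ⟨e, S, hS1, hS2, hS3⟩ := hR c hb
      by_cases he : e = b
      · subst he
        exact no_hom g1 hcom hS2 hS3 fun x hx => (hS1 hx).1
      · have he' : (!b) = e := by
          cases e <;> cases b <;> simp_all
        exact no_hom g2 hcom hS2 hS3 fun x hx => by rw [← he']; exact (hS1 hx).2
    have f1 := Set.not_infinite.1 (step true)
    have f2 := Set.not_infinite.1 (step false)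
    exact hinf' ((f1.union f2).subset hcov))
  have g := good_iff.2 hW1
  have hcmp' : Computable (mj W) := hcmp
  have hex : ∃ e : Bool, {x | mj W x = e}.Infinite := by
    by_contra hcon
    push Not at hcon
    have f1 := hcon true
    have f2 := hcon false
    refine Set.infinite_univ (α := ℕ) ((f1.union f2).subset fun x _ => ?_)
    rcases h : mj W x with _ | _
    · exact Or.inr h
    · exact Or.inl h
  obtain ⟨e, he⟩ := hex
  set X : ℕ → Bool := fun x => decide (mj W x = e) with hX
  have hXset : {n | X n = true} = {x | mj W x = e} := by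
    ext x; simp [hX]
  have hXc : Computable X := by
    have h1 : Computable fun x => (decide (mj W x = e)) :=
      (Primrec.dom_finite (fun b : Bool => decide (b = e))).to_comp.comp hcmp'
    exact h1
  obtain ⟨h, h1, h2, h3, h4⟩ := hG hc hXc (by rw [hXset]; exact he) e (by
    rintro ⟨S, hS1, hS2, hS3⟩
    rw [hXset] at hS2
    exact no_hom g hcom hS1 hS3 fun x hx => hS2 hx)
  exact hnc h _ h1 h2 h4

end Pool.Agent.Y579.NL
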