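import Pool.Agent.Helper446.RE
import Pool.Agent.Results.MP_743c94_lc.Full

/-!
Definitions for the negative half: `NON × C₃` is not reducible to Ramsey's theorem for pairs.
-/

namespace Pool.Agent.Y579.NL

open Pool.Agent.Results.MP_743c94_lc.Full

/-- `S` is homogeneous of colour `e` for the colouring `c` of the pairs `x < y`. -/
def Hom (c : ℕ → Bool) (e : Bool) (S : Set ℕ) : Prop :=
  ∀ x ∈ S, ∀ y ∈ S, x < y → c (Nat.pair x y) = e

/-- The set coded by a finite word. -/
def supp (σ : List Bool) : Set ℕ := {n | σ[n]? = some true}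

/-- The condition on triples of patterns. -/
def Good (c : ℕ → Bool) (Commit : List Bool → Prop) (W : ℕ → Bool) : Prop :=
  ∀ (σ : List Bool) (e : Bool), Commit σ → Hom c e (supp σ) → ∀ j < 3, ∀ j' < 3, j ≠ j' →
    ∃ x ∈ supp σ, W (3 * x + j) ≠ e ∨ W (3 * x + j') ≠ e

/-- The finite words that violate the condition. -/
def Bad (c : ℕ → Bool) (Commit : List Bool → Prop) (L : List Bool) : Prop :=
  ∃ (σ : List Bool) (e : Bool) (j j' : ℕ), Commit σ ∧ Hom c e (supp σ) ∧ j < 3 ∧ j' < 3 ∧
    j ≠ j' ∧ ∀ x ∈ supp σ, L[3 * x + j]? = some e ∧ L[3 * x + j']? = some e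

/-- Greedy: a computable set without infinite homogeneous subset of colour `e` has a computable
infinite subset that is homogeneous of the other colour. -/
def GREEDY : Prop := ∀ {c X : ℕ → Bool} (_ : Computable c) (_ : Computable X)
  (_ : {n | X n = true}.Infinite) (e : Bool)
  (_ : ¬ ∃ S : Set ℕ, S.Infinite ∧ S ⊆ {n | X n = true} ∧ Hom c e S),
  ∃ h : ℕ → Bool, Computable h ∧ {n | h n = true}.Infinite ∧
    {n | h n = true} ⊆ {n | X n = true} ∧ Hom c (!e) {n | h n = true}

/-- Ramsey's theorem for pairs and two colours. -/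
def RAMSEY : Prop := ∀ (c : ℕ → Bool) {X : Set ℕ} (_ : X.Infinite),
  ∃ (e : Bool) (S : Set ℕ), S ⊆ X ∧ S.Infinite ∧ Hom c e S

/-- Isolation. -/
def ISOLATE : Prop := ∀ {Bad : List Bool → Prop} (_ : REPred Bad) (m : Bool → Bool → Bool → Bool)
  (_ : ∃ W : ℕ → Bool, ∀ n, ¬ Bad (pre W n))
  (_ : ∀ W W' : ℕ → Bool, (∀ n, ¬ Bad (pre W n)) → (∀ n, ¬ Bad (pre W' n)) →
    {x | m (W (3 * x)) (W (3 * x + 1)) (W (3 * x + 2)) ≠
      m (W' (3 * x)) (W' (3 * x + 1)) (W' (3 * x + 2))}.Finite),
  ∃ W : ℕ → Bool, (∀ n, ¬ Bad (pre W n)) ∧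
    Computable (fun x => m (W (3 * x)) (W (3 * x + 1)) (W (3 * x + 2)))

/-- The violating words are recursively enumerable. -/
def BADRE : Prop := ∀ {c : ℕ → Bool} {Commit : List Bool → Prop} (_ : Computable c)
  (_ : REPred Commit), REPred (Bad c Commit)

/-- Relative computability by a word function preserves computability. -/
def COMPUT : Prop := ∀ {Φ : List Bool → ℕ → Option Bool} {p q : ℕ → Bool} (_ : Computable₂ Φ)
  (_ : Computable p) (_ : Computes Φ p q), Computable q

/-- The word read by the backward word function after `|σ|` bits of the solution. -/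
def mix (p : ℕ → Bool) (σ : List Bool) : List Bool :=
  (List.range (2 * σ.length)).map fun n => if n % 2 = 0 then p (n / 2) else σ.getD (n / 2) false

/-- All the bits `< N` of the second component of the output are known. -/
def Commit (Φ : List Bool → ℕ → Option Bool) (N : ℕ) (p : ℕ → Bool) (σ : List Bool) : Prop :=
  ∀ n < N, ∃ k < 2 * σ.length + 1, (Φ ((mix p σ).take k) (2 * n + 1)).isSome = true

/-- Commitment is recursively enumerable. -/
def COMMITRE : Prop := ∀ {Φ : List Bool → ℕ → Option Bool} (N : ℕ) {p : ℕ → Bool}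
  (_ : Computable₂ Φ) (_ : Computable p), REPred (Commit Φ N p)

end Pool.Agent.Y579.NL
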